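import Pool.Agent.AT3.Stmts2
import Pool.Agent.Helper97_K9.NZR
import Pool.Agent.Helper24_K9.Duc
import Pool.Agent.Helper69_KF.K4

/-!
Squad AT3, row LOC: existence and uniqueness of the local block.
-/

open scoped BigOperators

set_option autoImplicit false

noncomputable section

namespace Pool.Agent.PP.T3.H88

open Pool.Agent.Helper51_AWC Pool.Agent.Helper79_WRA Pool.Agent.PP Pool.Agent.PP.KF
open Pool.Agent.PP.K9 Pool.Agent.PP.K9.H97 Pool.Agent.PP.H75

attribute [local instance] Ideal.Quotient.field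

section tools

variable {F G : Type} [Field F] [Group G] [Finite G] {ℓ : ℕ} [Fact ℓ.Prime]

omit [Finite G] [Fact ℓ.Prime] in
theorem zpowers_pg {u : G} (hu : El ℓ u) : IsPGroup ℓ (Subgroup.zpowers u) := by
  obtain ⟨n, hn⟩ := hu
  rintro ⟨x, k, rfl⟩
  refine ⟨n, Subtype.ext ?_⟩
  change ((u ^ k) ^ ℓ ^ n : G) = 1
  rw [← zpow_natCast, ← zpow_mul, mul_comm, zpow_mul, zpow_natCast, hn, one_zpow]

omit [Finite G] in
theorem cu_eq (u : G) : Subgroup.centralizer (Subgroup.zpowers u : Set G) = Cu u := by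
  apply le_antisymm
  · refine Subgroup.centralizer_le ?_
    rw [Set.singleton_subset_iff]
    exact Subgroup.mem_zpowers u
  · intro x hx
    rw [Subgroup.mem_centralizer_iff]
    rintro _ ⟨k, rfl⟩
    have : Commute x u := Subgroup.mem_centralizer_singleton_iff.1 hx
    exact (this.zpow_right k).eq.symm

/-- the restriction to the centraliser of an `ℓ`-element -/
theorem idem_cu (hF : GoodF ℓ F) {e : G → F} (he : IsIdem e) {u : G} (hu : El ℓ u) :
    IsIdem (fun t : Cu u => e t) := by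
  have hn : Cu u ≤ Subgroup.normalizer (Subgroup.zpowers u : Set G) := by
    rw [← cu_eq]
    exact Subgroup.centralizer_le_normalizer _
  have h := (H20.brm ℓ F hF G (Subgroup.zpowers u) (Cu u) (zpowers_pg hu) (cu_eq u).le hn).2.2 e he
  have h2 : (fun t : Cu u => br (Subgroup.zpowers u) e t) = fun t : Cu u => e t := by
    funext t
    apply H66.br_of_mem
    rw [cu_eq]
    exact t.2
  rwa [h2] at h

omit [Finite G] [Fact ℓ.Prime] in
theorem el_of_mem {V : Subgroup G} (hV : IsPGroup ℓ V) {u : G} (hu : u ∈ V) : El ℓ u := by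
  obtain ⟨n, hn⟩ := hV ⟨u, hu⟩
  exact ⟨n, congrArg Subtype.val hn⟩

omit [Finite G] [Fact ℓ.Prime] in
theorem le_cu {e : G → F} {V : Subgroup G} {γ : G → F} (h : Ld ℓ e V γ) {u : G} (hu : u ∈ V) :
    V ≤ Cu u := fun v hv => Subgroup.mem_centralizer_singleton_iff.2 (h.ab v hv u hu)

omit [Finite G] in
theorem cent_le_cu {V : Subgroup G} {u : G} (hu : u ∈ V) :
    Subgroup.centralizer (V : Set G) ≤ Cu u := fun g hg =>
  Subgroup.mem_centralizer_singleton_iff.2 (Subgroup.mem_centralizer_iff.1 hg u hu).symm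

/-- `br_V` is multiplicative on the idempotents of the centraliser of `u ∈ V` -/
theorem br_mul (hF : GoodF ℓ F) {V : Subgroup G} (hV : IsPGroup ℓ V) {u : G}
    (hVC : V ≤ Cu u) {b c : G → F} (hb : Ix (Cu u) b) (hc : Ix (Cu u) c) :
    br V (mulF b c) = mulF (br V b) (br V c) :=
  H66.br_mulF hF hV (fun p hp => (cj_eq_iff p b).1 (hb.inv (hVC hp)))
    (fun p hp => (cj_eq_iff p c).1 (hc.inv (hVC hp)))

omit [Finite G] in
theorem br_zero (V : Subgroup G) : br V (0 : G → F) = 0 := by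
  funext g
  by_cases hg : g ∈ Subgroup.centralizer (V : Set G)
  · rw [H66.br_of_mem hg]
  · rw [H66.br_of_not_mem hg]
    rfl

omit [Finite G] in
theorem br_add (V : Subgroup G) (a b : G → F) : br V (a + b) = br V a + br V b := by
  funext g
  by_cases hg : g ∈ Subgroup.centralizer (V : Set G)
  · rw [H66.br_of_mem hg, Pi.add_apply, Pi.add_apply, H66.br_of_mem hg, H66.br_of_mem hg]
  · rw [H66.br_of_not_mem hg, Pi.add_apply, H66.br_of_not_mem hg, H66.br_of_not_mem hg, add_zero]

/-- the image of an idempotent of `C(u)` under `br_V` -/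
theorem ix_br (hF : GoodF ℓ F) {V : Subgroup G} (hV : IsPGroup ℓ V) {u : G}
    (hVC : V ≤ Cu u) (hXC : Subgroup.centralizer (V : Set G) ≤ Cu u) {b : G → F}
    (hb : Ix (Cu u) b) : Ix (Subgroup.centralizer (V : Set G)) (br V b) := by
  refine ⟨fun x hx => H66.br_of_not_mem hx, ?_, ?_⟩
  · intro x y
    change br V b (y * x * (y : G)⁻¹) = br V b x
    have hmem : (y : G) * x * (y : G)⁻¹ ∈ Subgroup.centralizer (V : Set G) :=
      Subgroup.mul_mem _ (Subgroup.mul_mem _ y.2 x.2) (Subgroup.inv_mem _ y.2)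
    rw [H66.br_of_mem hmem, H66.br_of_mem x.2]
    exact (cj_eq_iff (y : G) b).1 (hb.inv (hXC y.2)) x
  · rw [← mulF_res (Subgroup.centralizer (V : Set G)) _ (fun x hx => H66.br_of_not_mem hx),
      ← br_mul hF hV hVC hb hb, hb.mul]

end tools

/-- LOC -/
theorem loc : LocStmt := by
  intro ℓ _ F _ hF G _ _ e V γ hL u hu
  have hVC := le_cu hL hu
  have hXC : Subgroup.centralizer (V : Set G) ≤ Cu u := cent_le_cu hu
  have hel := el_of_mem hL.tp.pg hu
  have heI := idem_cu hF hL.blk.1 hel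
  -- uniqueness
  have huniq : ∀ b b', Lc e V γ u b → Lc e V γ u b' → b = b' := by
    intro b b' hb hb'
    rcases hb.blk.dich hb'.blk with h | h
    · exact h
    · exfalso
      apply hL.gam.ne
      have h1 := br_mul hF hL.tp.pg hVC hb.blk.ix hb'.blk.ix
      rw [h, br_zero] at h1
      calc γ = mulF (br V b) (mulF (br V b') γ) := by rw [hb'.gam, hb.gam]
        _ = mulF (mulF (br V b) (br V b')) γ := (mulF_assoc _ _ _).symm
        _ = 0 := by rw [← h1, mulF_zero_left]
  refine ⟨?_, huniq⟩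
  -- existence
  set E : G → F := PP.ext0 (Cu u) (fun t : Cu u => e t) with hE
  have hEX : Ix (Cu u) E := by
    refine ⟨fun x hx => H46.ext0_of_not_mem _ hx, ?_⟩
    rw [hE, H46.restr_ext0]
    exact heI
  have hbrE : br V E = br V e := by
    funext g
    by_cases hg : g ∈ Subgroup.centralizer (V : Set G)
    · rw [H66.br_of_mem hg, H66.br_of_mem hg, hE, H46.ext0_of_mem _ (hXC hg)]
    · rw [H66.br_of_not_mem hg, H66.br_of_not_mem hg]
  have hext_add : ∀ a b : Cu u → F, PP.ext0 (Cu u) (a + b) = PP.ext0 (Cu u) a + PP.ext0 (Cu u) b := by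
    intro a b
    funext x
    by_cases hx : x ∈ Cu u
    · rw [H46.ext0_of_mem _ hx, Pi.add_apply, Pi.add_apply, H46.ext0_of_mem _ hx,
        H46.ext0_of_mem _ hx]
    · rw [H46.ext0_of_not_mem _ hx, Pi.add_apply, H46.ext0_of_not_mem _ hx,
        H46.ext0_of_not_mem _ hx, add_zero]
  have hext_zero : PP.ext0 (Cu u) (0 : Cu u → F) = 0 := by
    funext x
    by_cases hx : x ∈ Cu u
    · rw [H46.ext0_of_mem _ hx]
      rfl
    · rw [H46.ext0_of_not_mem _ hx]
      rfl
  obtain ⟨b₀, hb₀, heb₀, hL₀⟩ := H24.exists_blk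
    (fun a : Cu u → F => mulF (br V (PP.ext0 (Cu u) a)) γ)
    (by
      show mulF (br V (PP.ext0 (Cu u) 0)) γ = 0
      rw [hext_zero, br_zero, mulF_zero_left])
    (by
      intro a b
      show mulF (br V (PP.ext0 (Cu u) (a + b))) γ =
        mulF (br V (PP.ext0 (Cu u) a)) γ + mulF (br V (PP.ext0 (Cu u) b)) γ
      rw [hext_add, br_add, H24.mulF_add_l])
    heI
    (by
      show mulF (br V E) γ ≠ 0
      rw [hbrE, hL.und]
      exact hL.gam.ne)
  have hrestr : (fun t : Cu u => PP.ext0 (Cu u) b₀ t) = b₀ := H46.restr_ext0 _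
  have hbx : Bx (Cu u) (PP.ext0 (Cu u) b₀) := by
    refine ⟨fun x hx => H46.ext0_of_not_mem _ hx, ?_⟩
    rw [hrestr]
    exact hb₀
  refine ⟨PP.ext0 (Cu u) b₀, hbx, ?_, ?_⟩
  · rw [hrestr]
    exact heb₀
  · have hix := ix_br hF hL.tp.pg hVC hXC hbx.ix
    rw [hix.comm hL.gam.ix]
    rcases hL.gam.dich' hix with h | h
    · exact h
    · exfalso
      apply hL₀
      show mulF (br V (PP.ext0 (Cu u) b₀)) γ = 0
      rw [hix.comm hL.gam.ix, h]

end Pool.Agent.PP.T3.H88
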