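import Pool.Agent.AT3.Stmts2
import Pool.Agent.Helper97_K9.NZR
import Pool.Agent.Helper19_K9.OMG
import Pool.Agent.Helper88_AT3.Loc

/-!
Squad AT3, row CGR: the congruence for one regular element.
-/

open scoped BigOperators

set_option autoImplicit false

noncomputable section

namespace Pool.Agent.PP.T3.H88

open Pool.Agent.Helper51_AWC Pool.Agent.Helper79_WRA Pool.Agent.PP Pool.Agent.PP.KF
open Pool.Agent.PP.K9 Pool.Agent.PP.K9.H97 Pool.Agent.PP.H75

attribute [local instance] Ideal.Quotient.field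

section tools

variable {F G : Type} [Field F] [Group G] [Finite G] {ℓ : ℕ}

theorem cent_le_tg {e : G → F} {V : Subgroup G} {γ : G → F} (h : Ld ℓ e V γ) :
    Subgroup.centralizer (V : Set G) ≤ Tg V γ := by
  refine le_inf (Subgroup.centralizer_le_normalizer _) ?_
  intro g hg x
  exact (cj_eq_iff g γ).1 (h.gam.ix.inv hg) x

theorem relindex_reg {e : G → F} {V : Subgroup G} {γ : G → F} (h : Ld ℓ e V γ) {u : G}
    (hu : Rg V γ u) : (Cu u).relIndex (Tg V γ) = ix V γ := by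
  have h1 : Tg V γ ⊓ Cu u = Subgroup.centralizer (V : Set G) :=
    le_antisymm hu.2.2 (le_inf (cent_le_tg h) (cent_le_cu hu.1))
  unfold ix
  rw [← Subgroup.inf_relIndex_left, h1]

end tools

/-- CGR -/
theorem cgr (rsv : RsvStmt) (nit : NitStmt) (lsb : LsbStmt) (rgl : RglStmt) : CgrStmt := by
  intro ℓ _ M _ hM G _ _ e V γ hL c hc u hu b hb d hd
  obtain ⟨b', d', -, -, -, hix⟩ := rgl ℓ M hM G e V γ hL u hu
  obtain ⟨hL', -, -, hcard, hdg⟩ := lsb ℓ M hM G e V γ hL u hu.1 b hb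
  obtain ⟨ε, hε, h1, h2⟩ := nit ℓ M hM (Cu u) _ _ _ hL' hix d c hd (hdg c hc)
  rw [hcard] at h1 h2
  refine ⟨ε, hε, fun χ hχ => ?_⟩
  obtain ⟨-, h3⟩ := H19.omg M G u (fun t : Cu u => b t) hb.blk.blk.1 u
    (Subgroup.mem_zpowers u)
  obtain ⟨h4, h5⟩ := h3 χ hχ.1
  have h6 := rsv ℓ M hM G e V γ hL u hu.1 b hb χ hχ
  rw [relindex_reg hL hu] at h6
  rw [h6] at h5
  have hCu : (Nat.card (Cu u) : ℂ) ≠ 0 := by
    exact_mod_cast Nat.card_pos.ne'
  have hd0 : (d : ℂ) ≠ 0 := by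
    exact_mod_cast hd.1.ne'
  have hCV : (Nat.card (Subgroup.centralizer (V : Set G)) : ℂ) ≠ 0 := by
    exact_mod_cast Nat.card_pos.ne'
  have hχ1 : χ 1 ≠ 0 := irr_one_ne hχ.1
  have e1 : gv M (Cu u) u b χ / d * ((Nat.card G * c : ℂ) /
      (Nat.card (Subgroup.centralizer (V : Set G)) * χ 1)) =
      (Nat.card G * gbv (Cu u) u (eh M (fun t : Cu u => b t)) χ / (Nat.card (Cu u) * χ 1)) *
      ((Nat.card (Cu u) * c : ℂ) / (Nat.card (Subgroup.centralizer (V : Set G)) * d)) := by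
    unfold gv
    field_simp
  rw [e1]
  refine ⟨(RM M).mul_mem h4 h1, ?_⟩
  rw [rr_mul h4 h1, h5, h2]
  push_cast
  ring

end Pool.Agent.PP.T3.H88
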