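import Pool.Agent.AT3.Stmts2
import Pool.Agent.Helper50_PP.Blk3
import Pool.Agent.Helper34_K9.INX
import Pool.Agent.Helper66_KF.Ring

/-!
Squad AT3, row CGZ: the congruences between the integers of two regular elements.
-/

open scoped BigOperators

set_option autoImplicit false

noncomputable section

namespace Pool.Agent.PP.T3.H88

open Pool.Agent.Helper51_AWC Pool.Agent.Helper79_WRA Pool.Agent.PP Pool.Agent.PP.KF
open Pool.Agent.PP.K9 Pool.Agent.PP.K9.H97 Pool.Agent.PP.H75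

attribute [local instance] Ideal.Quotient.field

/-- CGZ -/
theorem cgz (cgr : CgrStmt) (dgc : DgcStmt) (loc : LocStmt) : CgzStmt := by
  intro ℓ _ M _ hM G _ _ e V γ hL
  have hℓ : ℓ.Prime := Fact.out
  have hF : GoodF ℓ (FF M) := H50.fld ℓ hℓ M hM
  obtain ⟨c, hc⟩ := dgc ℓ M hM G e V γ hL
  -- the degree of a local block is unique
  have huniq : ∀ u : G, ∀ b : G → FF M, Bx (Cu u) b → ∀ d d' : ℕ,
      Dg M (fun t : Cu u => b t) d → Dg M (fun t : Cu u => b t) d' → d = d' := by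
    intro u b hb d d' hd hd'
    obtain ⟨κ, hκ, hκ', -⟩ := H50.exists_irr_blk hb.blk
    have h1 := hd.2 κ ⟨hκ, hκ'⟩
    have h2 := hd'.2 κ ⟨hκ, hκ'⟩
    rw [h1] at h2
    exact_mod_cast h2
  -- the signs
  have hsign : ∀ u : G, ∃ ε : ℤ, (ε = 1 ∨ ε = -1) ∧ (Rg V γ u → ∀ b, Lc e V γ u b → ∀ d : ℕ,
      Dg M (fun t : Cu u => b t) d → ∀ χ ∈ IrrE M e,
      (gv M (Cu u) u b χ / d * ((Nat.card G * c : ℂ) /
        (Nat.card (Subgroup.centralizer (V : Set G)) * χ 1))) ∈ RM M ∧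
      rr M (gv M (Cu u) u b χ / d * ((Nat.card G * c : ℂ) /
        (Nat.card (Subgroup.centralizer (V : Set G)) * χ 1))) = ((ε * ix V γ : ℤ) : FF M)) := by
    intro u
    by_cases h : Rg V γ u ∧ ∃ b, Lc e V γ u b ∧ ∃ d : ℕ, Dg M (fun t : Cu u => b t) d
    · obtain ⟨hu, b, hb, d, hd⟩ := h
      obtain ⟨ε, hε, h2⟩ := cgr ℓ M hM G e V γ hL c hc u hu b hb d hd
      refine ⟨ε, hε, fun _ b' hb' d' hd' χ hχ => ?_⟩
      have h3 : b' = b := (loc ℓ (FF M) hF G e V γ hL u hu.1).2 b' b hb' hb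
      subst h3
      have h4 : d' = d := huniq u b' hb'.blk d' d hd' hd
      subst h4
      exact h2 χ hχ
    · refine ⟨1, Or.inl rfl, fun hu b hb d hd => ?_⟩
      exact absurd ⟨hu, b, hb, d, hd⟩ h
  choose ε hε hmain using hsign
  refine ⟨ε, hε, ?_⟩
  intro u u' hu hu' b b' hb hb' d d' hd hd' χ hχ z z' hz hz'
  obtain ⟨h1, h2⟩ := hmain u hu b hb d hd χ hχ
  obtain ⟨h3, h4⟩ := hmain u' hu' b' hb' d' hd' χ hχ
  have hd0 : (d : ℂ) ≠ 0 := by
    exact_mod_cast hd.1.ne'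
  have hd0' : (d' : ℂ) ≠ 0 := by
    exact_mod_cast hd'.1.ne'
  rw [hz, mul_div_cancel_left₀ _ hd0] at h1 h2
  rw [hz', mul_div_cancel_left₀ _ hd0'] at h3 h4
  obtain ⟨ρ, hρ⟩ : ∃ ρ : ℂ, ρ = (Nat.card G * c : ℂ) /
    (Nat.card (Subgroup.centralizer (V : Set G)) * χ 1) := ⟨_, rfl⟩
  rw [← hρ] at h1 h2 h3 h4
  -- compare the residues
  have h5 : rr M ((z : ℂ) * ρ * (z' : ℂ)) = rr M ((z' : ℂ) * ρ * (z : ℂ)) := by
    congr 1
    ring
  rw [rr_mul h1 (rr_int z').1, rr_mul h3 (rr_int z).1, h2, h4, (rr_int z').2, (rr_int z).2] at h5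
  have hix : ((ix V γ : ℕ) : FF M) ≠ 0 := by
    intro h0
    have h6 := H34.inx ℓ M hM G e hL.blk V hL.tp hL.ab γ hL.gam.supp hL.gam.blk hL.und
    apply h6
    have h7 : rr M (((ix V γ : ℕ) : ℤ) : ℂ) = 0 := by
      rw [(rr_int ((ix V γ : ℕ) : ℤ)).2]
      exact_mod_cast h0
    have h8 := (dvd_of_rr hℓ hM).1 h7
    exact_mod_cast h8
  push_cast at h5
  have h6 : (ε u : FF M) * (z' : FF M) = (ε u' : FF M) * (z : FF M) := by
    apply mul_right_cancel₀ hix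
    linear_combination h5
  have hs : ∀ w, (ε w : FF M) * (ε w : FF M) = 1 := by
    intro w
    rcases hε w with h | h <;> rw [h] <;> push_cast <;> ring
  have h7 : rr M ((ε u * z - ε u' * z' : ℤ) : ℂ) = 0 := by
    rw [(rr_int _).2]
    push_cast
    have h8 := hs u
    have h9 := hs u'
    linear_combination (-(ε u : FF M) * (ε u' : FF M)) * h6 + (ε u' : FF M) * (z' : FF M) * h8 -
      (ε u : FF M) * (z : FF M) * h9
  exact (dvd_of_rr hℓ hM).1 h7

end Pool.Agent.PP.T3.H88
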